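import Pool.Agent.Helper29.SR.Props
import Pool.Agent.Helper51.UG.EHMat
import Pool.Agent.Helper6.RC.DomMat
import Pool.Agent.Helper8.RC.QOfT

/-!
# MP_b55b7c_an: traces of a matrix algebra (packet SR-MatT)
-/

open scoped ENNReal NNReal InnerProductSpace ComplexOrder
open Filter Topology

attribute [-instance] CStarMatrix.instAlgebra CStarMatrix.instModule CStarMatrix.instSMul
  CStarMatrix.instMulAction CStarMatrix.instDistribMulAction

noncomputable section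
namespace RC
universe u

theorem dim_one1_h5 {M : Type u} [CStarAlgebra M] [PartialOrder M] [StarOrderedRing M]
    {ν : Type} [Fintype ν] [DecidableEq ν] [Nonempty ν]
    (ψ' : TState (CStarMatrix ν ν M)) (σ' : QTrace (CStarMatrix ν ν M)) (hQ' : IsQ ψ' σ')
    (ψ : TState M) (σ : QTrace M) (hQ : IsQ ψ σ)
    (h : ∀ T : CStarMatrix ν ν M, ψ'.φ T = (Fintype.card ν : ℂ)⁻¹ * ∑ i, ψ.φ (T i i))
    (T : CStarMatrix ν ν M) (hT : 0 ≤ T) :
    σ'.dim (one1 T) = σ.dim T / Fintype.card ν := by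
  unfold QTrace.dim
  rw [div_eq_inv_mul, Real.mul_iSup_of_nonneg (by positivity)]
  refine iSup_congr fun n => ?_
  rw [← one1_cfc _ (by fun_prop) T hT.isSelfAdjoint, hQ', hQ, Fintype.sum_unique]
  show (ψ'.φ (cfc (fun t : ℝ => min 1 ((n : ℝ) * t)) T)).re = _
  rw [h, ← Complex.ofReal_natCast, ← Complex.ofReal_inv, Complex.re_ofReal_mul, Complex.re_sum]

theorem matT_h5 : MatTP.{u} := by
  intro M _ _ _ ν _ _ _
  refine ⟨fun ψ' σ' hQ' => ?_, fun ψ σ hQ => ?_⟩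
  · obtain ⟨σ, hQ⟩ := qOfTP M (res51 ψ')
    exact ⟨res51 ψ', σ, hQ, tr51 ψ', dim_one1_h5 ψ' σ' hQ' (res51 ψ') σ hQ (tr51 ψ')⟩
  · obtain ⟨σ', hQ'⟩ := qOfTP (CStarMatrix ν ν M) (Pool.Agent.Helper6.RC.tst ψ ν)
    exact ⟨Pool.Agent.Helper6.RC.tst ψ ν, σ', hQ', fun T => rfl,
      dim_one1_h5 _ σ' hQ' ψ σ hQ (fun T => rfl)⟩

end RC
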