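import Pool.Agent.Helper47.SR.Goals

/-!
# Packet SR-ENT (MP_0130f7_co)
-/

namespace Pool.Agent.Helper5.SR

open Finset Pool.Agent.Helper47.SR

theorem goal_ENT : Goal_ENT := by
  intro a b hba
  obtain ⟨c, rfl⟩ : ∃ c, a = b + c := ⟨a - b, by omega⟩
  have hc : b + c - b = c := by omega
  rw [hc]
  set f : ℕ → ℕ := fun j => (b + c).choose j * b ^ j * c ^ (b + c - j) with hf
  -- increasing part
  have up : ∀ j, j + 1 ≤ b → f j ≤ f (j + 1) := by
    intro j hj
    have h1 : (b + c).choose (j + 1) * (j + 1) = (b + c).choose j * (b + c - j) :=
      Nat.choose_succ_right_eq _ _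
    have h2 : (b + c).choose j * c ≤ (b + c).choose (j + 1) * b := by
      have h3 : (b + c).choose j * c * (j + 1) ≤ (b + c).choose (j + 1) * b * (j + 1) := by
        calc (b + c).choose j * c * (j + 1) ≤ (b + c).choose j * (b + c - j) * b := by
              gcongr
              omega
          _ = (b + c).choose (j + 1) * (j + 1) * b := by rw [h1]
          _ = _ := by ring
      exact Nat.le_of_mul_le_mul_right h3 (Nat.succ_pos j)
    have h4 : b + c - j = (b + c - (j + 1)) + 1 := by omega
    simp only [hf]
    rw [h4, pow_succ, pow_succ]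
    calc (b + c).choose j * b ^ j * (c ^ (b + c - (j + 1)) * c)
        = ((b + c).choose j * c) * (b ^ j * c ^ (b + c - (j + 1))) := by ring
      _ ≤ ((b + c).choose (j + 1) * b) * (b ^ j * c ^ (b + c - (j + 1))) := by gcongr
      _ = _ := by ring
  have down : ∀ j, b ≤ j → j + 1 ≤ b + c → f (j + 1) ≤ f j := by
    intro j hj hj2
    have h1 : (b + c).choose (j + 1) * (j + 1) = (b + c).choose j * (b + c - j) :=
      Nat.choose_succ_right_eq _ _
    have h2 : (b + c).choose (j + 1) * b ≤ (b + c).choose j * c := by
      have h3 : (b + c).choose (j + 1) * b * (j + 1) ≤ (b + c).choose j * c * (j + 1) := by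
        calc (b + c).choose (j + 1) * b * (j + 1) = (b + c).choose (j + 1) * (j + 1) * b := by ring
          _ = (b + c).choose j * (b + c - j) * b := by rw [h1]
          _ ≤ (b + c).choose j * c * (j + 1) := by
              gcongr
              · omega
              · omega
      exact Nat.le_of_mul_le_mul_right h3 (Nat.succ_pos j)
    have h4 : b + c - j = (b + c - (j + 1)) + 1 := by omega
    simp only [hf]
    rw [h4, pow_succ, pow_succ]
    calc (b + c).choose (j + 1) * (b ^ j * b) * c ^ (b + c - (j + 1))
        = ((b + c).choose (j + 1) * b) * (b ^ j * c ^ (b + c - (j + 1))) := by ring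
      _ ≤ ((b + c).choose j * c) * (b ^ j * c ^ (b + c - (j + 1))) := by gcongr
      _ = _ := by ring
  have hup : ∀ k, k ≤ b → f (b - k) ≤ f b := by
    intro k
    induction k with
    | zero => intro _; simp
    | succ k ih =>
      intro hk
      have := up (b - (k + 1)) (by omega)
      have h5 : b - (k + 1) + 1 = b - k := by omega
      rw [h5] at this
      exact this.trans (ih (by omega))
  have hdown : ∀ k, k ≤ c → f (b + k) ≤ f b := by
    intro k
    induction k with
    | zero => intro _; simp
    | succ k ih =>
      intro hk
      exact (down (b + k) (by omega) (by omega)).trans (ih (by omega))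
  have hall : ∀ j ∈ range (b + c + 1), f j ≤ f b := by
    intro j hj
    rw [mem_range] at hj
    rcases le_total j b with h | h
    · have := hup (b - j) (by omega)
      have h6 : b - (b - j) = j := by omega
      rwa [h6] at this
    · have := hdown (j - b) (by omega)
      have h6 : b + (j - b) = j := by omega
      rwa [h6] at this
  have hfb : f b = (b + c).choose b * b ^ b * c ^ c := by
    simp only [hf]
    rw [hc]
  calc (b + c) ^ (b + c) = ∑ j ∈ range (b + c + 1), b ^ j * c ^ (b + c - j) * (b + c).choose j := by
        rw [add_pow]
        rfl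
    _ = ∑ j ∈ range (b + c + 1), f j := by
        apply sum_congr rfl
        intro j _
        simp only [hf]
        ring
    _ ≤ ∑ j ∈ range (b + c + 1), f b := sum_le_sum hall
    _ = (b + c + 1) * ((b + c).choose b * b ^ b * c ^ c) := by
        rw [sum_const, card_range, smul_eq_mul, hfb]

end Pool.Agent.Helper5.SR
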