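import Pool.Agent.Helper47.SR.Goals

/-!
# Packet SR-TB (MP_0130f7_co)
-/

namespace Pool.Agent.Helper5.SR

open Finset Pool.Agent.Helper47.SR

theorem goal_TB (hTL : Goal_TL) : Goal_TB := by
  classical
  intro n G hG m hm Y hY
  have h1 : (m + 1) * Ew G (dn m Y) = ∑ p ∈ (dn m Y).sigma (fun x => x), wt G p.1 := by
    rw [Finset.sum_sigma]
    unfold Ew
    rw [Finset.mul_sum]
    apply Finset.sum_congr rfl
    intro x hx
    have hx' : #x = m + 1 := by
      have := (Finset.mem_filter.1 hx).1
      exact (Finset.mem_powersetCard.1 this).2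
    simp [hx']
  have h2 : ∑ p ∈ (dn m Y).sigma (fun x => x), wt G p.1
      ≤ ∑ q ∈ Y.sigma (fun y => yᶜ), wt G (insert q.2 q.1) := by
    have hinj : Set.InjOn (fun p : (Σ _ : Finset (Fin n), Fin n) =>
        (⟨p.1.erase p.2, p.2⟩ : Σ _ : Finset (Fin n), Fin n)) ((dn m Y).sigma (fun x => x) : Finset _) := by
      rintro ⟨x, i⟩ hx ⟨x', i'⟩ hx' h
      simp only [Finset.coe_sigma, Set.mem_sigma_iff, Finset.mem_coe] at hx hx'
      simp only [Sigma.mk.injEq, heq_eq_eq] at h
      obtain ⟨h1, h2⟩ := h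
      subst h2
      have : x = x' := by
        rw [← Finset.insert_erase hx.2, ← Finset.insert_erase hx'.2, h1]
      subst this
      rfl
    calc ∑ p ∈ (dn m Y).sigma (fun x => x), wt G p.1
        = ∑ p ∈ (dn m Y).sigma (fun x => x), wt G (insert p.2 (p.1.erase p.2)) := by
          apply Finset.sum_congr rfl
          rintro ⟨x, i⟩ hx
          have hi : i ∈ x := (Finset.mem_sigma.1 hx).2
          simp only [Finset.insert_erase hi]
      _ = ∑ q ∈ ((dn m Y).sigma (fun x => x)).image (fun p : (Σ _ : Finset (Fin n), Fin n) =>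
            (⟨p.1.erase p.2, p.2⟩ : Σ _ : Finset (Fin n), Fin n)), wt G (insert q.2 q.1) := by
          rw [Finset.sum_image hinj]
      _ ≤ _ := by
          apply Finset.sum_le_sum_of_subset
          intro q hq
          obtain ⟨⟨x, i⟩, hp, rfl⟩ := Finset.mem_image.1 hq
          rw [Finset.mem_sigma] at hp ⊢
          obtain ⟨hx, hi⟩ := hp
          have hx2 := (Finset.mem_filter.1 hx).2
          refine ⟨hx2 i hi, ?_⟩
          simp
  have h3 : ∑ q ∈ Y.sigma (fun y => yᶜ), wt G (insert q.2 q.1) ≤ m * #Y := by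
    rw [Finset.sum_sigma]
    calc ∑ y ∈ Y, ∑ j ∈ yᶜ, wt G (insert j y) ≤ ∑ y ∈ Y, m := by
          apply Finset.sum_le_sum
          intro y hy
          have hy' : #y = m := (Finset.mem_powersetCard.1 (hY hy)).2
          have := hTL n G hG y (by omega)
          omega
      _ = m * #Y := by simp [mul_comm]
  omega

end Pool.Agent.Helper5.SR
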